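import Pool.Agent.Lib_helper77.LCL.CSet

set_option autoImplicit false

/-!
# The set `C` on the non-free part, selection of circuits and distances
-/

namespace Pool.Agent.Lib_helper77.CSet

open Set

variable {Γ X : Type*} [Group Γ] [MulAction Γ X] [MeasurableSpace X]

/-! ### measurability -/

theorem meas_eq [MeasurableSpace.CountablySeparated X]
    (hm : ∀ γ : Γ, Measurable fun x : X => γ • x) (γ δ : Γ) :
    MeasurableSet {x : X | γ • x = δ • x} := by
  obtain ⟨T, hT, hsep⟩ := exists_seq_separating X (p := MeasurableSet) MeasurableSet.empty univ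
  have : {x : X | γ • x = δ • x} = ⋂ n, {x : X | γ • x ∈ T n ↔ δ • x ∈ T n} := by
    ext x
    simp only [mem_setOf_eq, mem_iInter]
    constructor
    · intro h n; rw [h]
    · intro h; exact hsep _ trivial _ trivial h
  rw [this]
  refine MeasurableSet.iInter fun n => ?_
  exact measurableSet_setOf.2
    ((measurableSet_setOf.1 (hm γ (hT n))).iff (measurableSet_setOf.1 (hm δ (hT n))))

theorem measurableSet_NF [Countable Γ] [MeasurableSpace.CountablySeparated X]
    (hm : ∀ γ : Γ, Measurable fun x : X => γ • x) : MeasurableSet (NF Γ X) := by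
  have : NF Γ X = ⋃ γ : {γ : Γ // γ ≠ 1}, {x : X | (γ : Γ) • x = (1 : Γ) • x} := by
    ext x
    simp [NF]
  rw [this]
  exact MeasurableSet.iUnion fun γ => meas_eq hm _ _

/-- countable Borel family separating `x` from `δ • x`, `δ` in a finite list -/
theorem sep_family [MeasurableSpace.CountablySeparated X]
    (hm : ∀ γ : Γ, Measurable fun x : X => γ • x) (ds : List Γ) :
    ∃ E : ℕ → Set X, (∀ n, MeasurableSet (E n)) ∧ (∀ x, ∃ n, x ∈ E n) ∧
      ∀ n, ∀ δ ∈ ds, ∀ x ∈ E n, δ • x ∈ E n → δ • x = x := by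
  induction ds with
  | nil =>
    exact ⟨fun _ => univ, fun _ => MeasurableSet.univ, fun x => ⟨0, trivial⟩, by simp⟩
  | cons δ ds ih =>
    obtain ⟨E, hE1, hE2, hE3⟩ := ih
    obtain ⟨T, hT, hsep⟩ := exists_seq_separating X (p := MeasurableSet) MeasurableSet.empty univ
    let F : ℕ → Set X := fun k => {x | δ • x = x} ∪
      if k % 2 = 0 then {x | x ∈ T (k / 2) ∧ δ • x ∉ T (k / 2)}
      else {x | x ∉ T (k / 2) ∧ δ • x ∈ T (k / 2)}
    have hfix : MeasurableSet {x : X | δ • x = x} := by
      have := meas_eq hm δ (1 : Γ)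
      simpa using this
    have hF1 : ∀ k, MeasurableSet (F k) := by
      intro k
      refine hfix.union ?_
      split_ifs
      · exact (hT _).inter (hm δ (hT _)).compl
      · exact (hT _).compl.inter (hm δ (hT _))
    have hF2 : ∀ x, ∃ k, x ∈ F k := by
      intro x
      by_cases h : δ • x = x
      · exact ⟨0, Or.inl h⟩
      · have : ∃ n, ¬ (x ∈ T n ↔ δ • x ∈ T n) := by
          by_contra hc
          push Not at hc
          exact h (hsep _ trivial _ trivial hc).symm
        obtain ⟨n, hn⟩ := this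
        by_cases hx : x ∈ T n
        · refine ⟨2 * n, Or.inr ?_⟩
          have h1 : 2 * n % 2 = 0 := by omega
          have h2 : 2 * n / 2 = n := by omega
          rw [if_pos h1, h2]
          exact ⟨hx, fun h => hn (by tauto)⟩
        · refine ⟨2 * n + 1, Or.inr ?_⟩
          have h1 : ¬ (2 * n + 1) % 2 = 0 := by omega
          have h2 : (2 * n + 1) / 2 = n := by omega
          rw [if_neg h1, h2]
          refine ⟨hx, ?_⟩
          by_contra h3
          exact hn (by tauto)
    have hF3 : ∀ k, ∀ x ∈ F k, δ • x ∈ F k → δ • x = x := by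
      intro k x hx hdx
      rcases hx with hx | hx
      · exact hx
      rcases hdx with hdx | hdx
      · exact smul_left_cancel δ hdx
      · split_ifs at hx hdx
        · exact absurd hdx.1 hx.2
        · exact absurd hx.2 hdx.1
    refine ⟨fun n => E n.unpair.1 ∩ F n.unpair.2, fun n => (hE1 _).inter (hF1 _), ?_, ?_⟩
    · intro x
      obtain ⟨m, hm'⟩ := hE2 x
      obtain ⟨k, hk⟩ := hF2 x
      exact ⟨Nat.pair m k, by simpa using ⟨hm', hk⟩⟩
    · intro n δ' hδ' x hx hdx
      rcases List.mem_cons.1 hδ' with rfl | h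
      · exact hF3 _ x hx.2 hdx.2
      · exact hE3 _ δ' h x hx.1 hdx.1

/-! ### the selection -/

section Selection

variable (S : Bool → Subgroup Γ) (W : ℕ → List Γ) (B : ℕ → Set X)

/-- base points selected at stage `n` when the points of `V` are forbidden -/
def sel (n : ℕ) (V : Set X) : Set X :=
  {x | x ∈ NF Γ X ∧ x ∈ B n ∧ IsC S (W n) x ∧ ∀ i < (W n).length, pt (W n) i x ∉ V}

/-- points of the circuits based at points of `Y` whose position `i` satisfies `P i` -/
def ptsOf (n : ℕ) (Y : Set X) (P : ℕ → Prop) : Set X :=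
  {p | ∃ i, i < (W n).length ∧ P i ∧ ∃ x ∈ Y, pt (W n) i x = p}

/-- used points before stage `n` -/
def used : ℕ → Set X
  | 0 => ∅
  | n + 1 => used n ∪ ptsOf W n (sel S W B n (used n)) (fun _ => True)

theorem used_mono {n m : ℕ} (h : n ≤ m) : used S W B n ⊆ used S W B m := by
  induction m, h using Nat.le_induction with
  | base => exact subset_rfl
  | succ m _ ih => exact ih.trans subset_union_left

variable {S W B}

theorem meas_ptsOf (hm : ∀ γ : Γ, Measurable fun x : X => γ • x) {n : ℕ} {Y : Set X}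
    (hY : MeasurableSet Y) (P : ℕ → Prop) : MeasurableSet (ptsOf W n Y P) := by
  have : ptsOf W n Y P = ⋃ i : {i // i < (W n).length ∧ P i},
      {p : X | (ev ((W n).take i))⁻¹ • p ∈ Y} := by
    ext p
    simp only [ptsOf, mem_setOf_eq, mem_iUnion, Subtype.exists]
    constructor
    · rintro ⟨i, h1, h2, x, hx, rfl⟩
      exact ⟨i, ⟨h1, h2⟩, by unfold pt; rwa [inv_smul_smul]⟩
    · rintro ⟨i, ⟨h1, h2⟩, h⟩
      exact ⟨i, h1, h2, _, h, by unfold pt; rw [smul_inv_smul]⟩
  rw [this]
  exact MeasurableSet.iUnion fun i => hm _ hY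

theorem meas_IsC [MeasurableSpace.CountablySeparated X]
    (hm : ∀ γ : Γ, Measurable fun x : X => γ • x) (w : List Γ) :
    MeasurableSet {x : X | IsC S w x} := by
  by_cases h : w ≠ [] ∧ w.length.bodd = false ∧ Alt S true w
  · obtain ⟨h1, h2, h3⟩ := h
    have : {x : X | IsC S w x} = {x : X | ev w • x = (1 : Γ) • x} ∩
        ⋂ (i : ℕ) (j : ℕ), {x : X | i < w.length → j < w.length →
          ev (w.take i) • x = ev (w.take j) • x → i = j} := by
      ext x
      simp only [mem_setOf_eq, mem_inter_iff, mem_iInter, one_smul]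
      exact ⟨fun h => ⟨h.closed, h.inj⟩, fun h => ⟨h1, h2, h3, h.1, h.2⟩⟩
    rw [this]
    refine (meas_eq hm _ _).inter (MeasurableSet.iInter fun i => MeasurableSet.iInter fun j => ?_)
    by_cases hij : i = j
    · simp [hij]
    by_cases hi : i < w.length
    · by_cases hj : j < w.length
      · have : {x : X | i < w.length → j < w.length →
          ev (w.take i) • x = ev (w.take j) • x → i = j} =
            {x : X | ev (w.take i) • x = ev (w.take j) • x}ᶜ := by
          ext x; simp [hi, hj, hij]
        rw [this]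
        exact (meas_eq hm _ _).compl
      · simp [hj]
    · simp [hi]
  · have : {x : X | IsC S w x} = ∅ := by
      ext x
      simp only [mem_setOf_eq, mem_empty_iff_false, iff_false]
      intro hx
      exact h ⟨hx.ne, hx.even, hx.alt⟩
    rw [this]
    exact MeasurableSet.empty

theorem meas_sel [Countable Γ] [MeasurableSpace.CountablySeparated X]
    (hm : ∀ γ : Γ, Measurable fun x : X => γ • x) (hB : ∀ n, MeasurableSet (B n)) (n : ℕ)
    {V : Set X} (hV : MeasurableSet V) : MeasurableSet (sel S W B n V) := by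
  have : sel S W B n V = NF Γ X ∩ (B n ∩ ({x : X | IsC S (W n) x} ∩
      ⋂ i : {i // i < (W n).length}, {x : X | ev ((W n).take i) • x ∉ V})) := by
    ext x
    simp only [sel, mem_setOf_eq, mem_inter_iff, mem_iInter, Subtype.forall, pt]
  rw [this]
  exact (measurableSet_NF hm).inter ((hB n).inter ((meas_IsC hm _).inter
    (MeasurableSet.iInter fun i => (hm _ hV).compl)))

theorem meas_used [Countable Γ] [MeasurableSpace.CountablySeparated X]
    (hm : ∀ γ : Γ, Measurable fun x : X => γ • x) (hB : ∀ n, MeasurableSet (B n)) (n : ℕ) :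
    MeasurableSet (used S W B n) := by
  induction n with
  | zero => exact MeasurableSet.empty
  | succ n ih => exact ih.union (meas_ptsOf hm (meas_sel hm hB n ih) _)

/-- uniqueness of the representation of a used point -/
theorem uniq (hdis : ∀ n, ∀ x ∈ B n, ∀ y ∈ B n, ∀ i j, i < (W n).length → j < (W n).length →
      pt (W n) i x = pt (W n) j y → x = y)
    {n m : ℕ} {x y : X} (hx : x ∈ sel S W B n (used S W B n)) (hy : y ∈ sel S W B m (used S W B m))
    {i j : ℕ} (hi : i < (W n).length) (hj : j < (W m).length)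
    (h : pt (W n) i x = pt (W m) j y) : n = m ∧ x = y ∧ i = j := by
  have key : ∀ {n m : ℕ} {x y : X}, x ∈ sel S W B n (used S W B n) →
      y ∈ sel S W B m (used S W B m) → ∀ {i j : ℕ}, i < (W n).length → j < (W m).length →
      pt (W n) i x = pt (W m) j y → ¬ n < m := by
    intro n m x y hx hy i j hi hj h hnm
    apply hy.2.2.2 j hj
    rw [← h]
    exact used_mono S W B hnm (Or.inr ⟨i, hi, trivial, x, hx, rfl⟩)
  have hnm : n = m :=
    le_antisymm (not_lt.1 (key hy hx hj hi h.symm)) (not_lt.1 (key hx hy hi hj h))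
  subst hnm
  have hxy : x = y := hdis n x hx.2.1 y hy.2.1 i j hi hj h
  subst hxy
  exact ⟨rfl, rfl, hx.2.2.1.inj i j hi hj h⟩

end Selection

/-- saturation -/
def sat (H : Subgroup Γ) (V : Set X) : Set X := {x | ∃ γ ∈ H, γ • x ∈ V}

theorem meas_sat [Countable Γ] (hm : ∀ γ : Γ, Measurable fun x : X => γ • x) (H : Subgroup Γ)
    {V : Set X} (hV : MeasurableSet V) : MeasurableSet (sat H V) := by
  have : sat H V = ⋃ γ : H, {x : X | (γ : Γ) • x ∈ V} := by
    ext x; simp [sat]
  rw [this]
  exact MeasurableSet.iUnion fun γ => hm _ hV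

omit [MeasurableSpace X] in
theorem subset_sat (H : Subgroup Γ) (V : Set X) : V ⊆ sat H V := fun x hx =>
  ⟨1, H.one_mem, by simpa using hx⟩

omit [MeasurableSpace X] in
theorem smul_mem_sat {H : Subgroup Γ} {V : Set X} {x : X} (h : x ∈ sat H V) {γ : Γ}
    (hγ : γ ∈ H) : γ • x ∈ sat H V := by
  obtain ⟨δ, hδ, h⟩ := h
  exact ⟨δ * γ⁻¹, H.mul_mem hδ (H.inv_mem hγ), by rwa [mul_smul, inv_smul_smul]⟩

/-- vertices (of type `b`) at distance at most `k` from `V` -/
def ball (S : Bool → Subgroup Γ) (V : Set X) : ℕ → Bool → Set X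
  | 0, b => sat (S b) V
  | k + 1, b => sat (S b) (ball S V k true ∪ ball S V k false)

omit [MeasurableSpace X] in
theorem smul_mem_ball {S : Bool → Subgroup Γ} {V : Set X} {k : ℕ} {b : Bool} {x : X}
    (h : x ∈ ball S V k b) {γ : Γ} (hγ : γ ∈ S b) : γ • x ∈ ball S V k b := by
  cases k with
  | zero => exact smul_mem_sat h hγ
  | succ k => exact smul_mem_sat h hγ

omit [MeasurableSpace X] in
theorem ball_succ {S : Bool → Subgroup Γ} {V : Set X} (k : ℕ) (b c : Bool) :
    ball S V k c ⊆ ball S V (k + 1) b := by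
  intro x hx
  refine subset_sat (S b) _ ?_
  cases c
  · exact Or.inr hx
  · exact Or.inl hx

omit [MeasurableSpace X] in
theorem ball_mono {S : Bool → Subgroup Γ} {V : Set X} {k l : ℕ} (h : k ≤ l) (b : Bool) :
    ball S V k b ⊆ ball S V l b := by
  induction l, h using Nat.le_induction with
  | base => exact subset_rfl
  | succ l _ ih => exact ih.trans (ball_succ l b b)

theorem meas_ball [Countable Γ] (hm : ∀ γ : Γ, Measurable fun x : X => γ • x)
    {S : Bool → Subgroup Γ} {V : Set X} (hV : MeasurableSet V) (k : ℕ) (b : Bool) :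
    MeasurableSet (ball S V k b) := by
  induction k generalizing b with
  | zero => exact meas_sat hm _ hV
  | succ k ih => exact meas_sat hm _ ((ih true).union (ih false))

omit [MeasurableSpace X] in
/-- every point of the orbit of a point of `V` is at finite distance -/
theorem exists_ball {S : Bool → Subgroup Γ}
    (hgen : Subgroup.closure ((S true : Set Γ) ∪ S false) = ⊤) {V : Set X} {x : X} {γ : Γ}
    (h : γ • x ∈ V) (b : Bool) : ∃ k, x ∈ ball S V k b := by
  have key : ∀ γ : Γ, ∀ y ∈ V, ∀ b : Bool, ∃ k, γ • y ∈ ball S V k b := by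
    intro γ
    have hγ : γ ∈ Subgroup.closure ((S true : Set Γ) ∪ S false) := by rw [hgen]; trivial
    have step : ∀ (c : Bool) (δ : Γ), δ ∈ S c → ∀ z : X, (∀ b : Bool, ∃ k, z ∈ ball S V k b) →
        ∀ b : Bool, ∃ k, δ • z ∈ ball S V k b := by
      intro c δ hδ z hz b
      obtain ⟨k, hk⟩ := hz c
      exact ⟨k + 1, ball_succ k b c (smul_mem_ball hk hδ)⟩
    induction hγ using Subgroup.closure_induction_left with
    | one =>
      intro y hy b
      exact ⟨0, by rw [one_smul]; exact subset_sat (S b) V hy⟩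
    | mul_left x hx y _ ih =>
      intro z hz b
      rw [mul_smul]
      rcases hx with hx | hx
      · exact step true x hx _ (ih z hz) b
      · exact step false x hx _ (ih z hz) b
    | inv_mul_cancel x hx y _ ih =>
      intro z hz b
      rw [mul_smul]
      rcases hx with hx | hx
      · exact step true _ (inv_mem hx) _ (ih z hz) b
      · exact step false _ (inv_mem hx) _ (ih z hz) b
  have := key γ⁻¹ _ h b
  rwa [inv_smul_smul] at this

/-- the `C`-set lemma, for two subgroups -/
theorem cset [Countable Γ] [MeasurableSpace.CountablySeparated X]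
    (hm : ∀ γ : Γ, Measurable fun x : X => γ • x) (S : Bool → Subgroup Γ)
    (hgen : Subgroup.closure ((S true : Set Γ) ∪ S false) = ⊤)
    (hfree : ∀ b, ∀ γ ∈ S b, γ ≠ 1 → ∀ x : X, γ • x ≠ x) :
    ∃ C : Set X, MeasurableSet C ∧ C ⊆ NF Γ X ∧
      (∀ x ∈ NF Γ X, ∃ γ ∈ S true, γ • x ∈ C) ∧
      (∀ x ∈ NF Γ X, ∃ γ ∈ S false, γ • x ∉ C) := by
  classical
  -- the countable family of pairs
  let ds : List Γ → List Γ := fun w =>
    (List.range w.length).flatMap fun i => (List.range w.length).map fun j =>
      (ev (w.take j))⁻¹ * ev (w.take i)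
  choose E hE1 hE2 hE3 using fun w : List Γ => sep_family (X := X) hm (ds w)
  obtain ⟨e, he⟩ := exists_surjective_nat (List Γ × ℕ)
  let W : ℕ → List Γ := fun n => (e n).1
  let B : ℕ → Set X := fun n => E (e n).1 (e n).2
  have hB : ∀ n, MeasurableSet (B n) := fun n => hE1 _ _
  have hdis : ∀ n, ∀ x ∈ B n, ∀ y ∈ B n, ∀ i j, i < (W n).length → j < (W n).length →
      pt (W n) i x = pt (W n) j y → x = y := by
    intro n x hx y hy i j hi hj h
    have hy' : y = ((ev ((W n).take j))⁻¹ * ev ((W n).take i)) • x := by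
      unfold pt at h
      rw [mul_smul, h, inv_smul_smul]
    have hmem : (ev ((W n).take j))⁻¹ * ev ((W n).take i) ∈ ds (W n) := by
      simp only [ds, List.mem_flatMap, List.mem_map, List.mem_range]
      exact ⟨i, hi, j, hj, rfl⟩
    rw [hy'] at hy
    have := hE3 _ _ _ hmem x hx hy
    rw [hy', this]
  let U : ℕ → Set X := used S W B
  have hU : ∀ n, MeasurableSet (U n) := meas_used hm hB
  let St : Set X := ⋃ n, U n
  let Odd : Set X := ⋃ n, ptsOf W n (sel S W B n (U n)) (fun i => i.bodd = true)
  have hSt : MeasurableSet St := MeasurableSet.iUnion hU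
  have hOdd : MeasurableSet Odd :=
    MeasurableSet.iUnion fun n => meas_ptsOf hm (meas_sel hm hB n (hU n)) _
  have memSt : ∀ {n : ℕ} {x : X}, x ∈ sel S W B n (U n) → ∀ {i : ℕ}, i < (W n).length →
      pt (W n) i x ∈ St := by
    intro n x hx i hi
    exact mem_iUnion.2 ⟨n + 1, Or.inr ⟨i, hi, trivial, x, hx, rfl⟩⟩
  have exSt : ∀ {p : X}, p ∈ St → ∃ n, ∃ x ∈ sel S W B n (U n), ∃ i, i < (W n).length ∧
      pt (W n) i x = p := by
    intro p hp
    obtain ⟨n, hn⟩ := mem_iUnion.1 hp
    induction n with
    | zero => exact absurd hn (by simp [U, used])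
    | succ n ih =>
      rcases hn with hn | ⟨i, hi, _, x, hx, rfl⟩
      · exact ih hn
      · exact ⟨n, x, hx, i, hi, rfl⟩
  have hNF : ∀ {n : ℕ} {x : X}, x ∈ sel S W B n (U n) → ∀ {i : ℕ}, pt (W n) i x ∈ NF Γ X :=
    fun hx => smul_mem_NF hx.1 _
  have hStNF : St ⊆ NF Γ X := by
    intro p hp
    obtain ⟨n, x, hx, i, hi, rfl⟩ := exSt hp
    exact hNF hx
  -- every orbit of NF meets St
  have hmeet : ∀ x ∈ NF Γ X, ∃ γ : Γ, γ • x ∈ St := by
    intro x hx
    obtain ⟨γ, w, hw⟩ := exists_circuit hgen hfree hx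
    obtain ⟨m, hm'⟩ := hE2 w (γ • x)
    obtain ⟨n, hn⟩ := he (w, m)
    have hWn : W n = w := by simp [W, hn]
    have hBn : γ • x ∈ B n := by simp only [B, hn]; exact hm'
    by_cases h : ∀ i < (W n).length, pt (W n) i (γ • x) ∉ U n
    · have hs : γ • x ∈ sel S W B n (U n) :=
        ⟨smul_mem_NF hx γ, hBn, by rw [hWn]; exact hw, h⟩
      have hl : 0 < (W n).length := by
        rw [hWn]; exact List.length_pos_of_ne_nil hw.ne
      have := memSt hs hl
      rw [pt_zero] at this
      exact ⟨γ, this⟩
    · push Not at h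
      obtain ⟨i, hi, h⟩ := h
      refine ⟨ev ((W n).take i) * γ, ?_⟩
      rw [mul_smul]
      exact mem_iUnion.2 ⟨n, h⟩
  let C : Set X := Odd ∪ (NF Γ X ∩ Stᶜ ∩ ⋃ k, (ball S St k false ∩ (ball S St k true)ᶜ))
  have hOddSt : Odd ⊆ St := by
    intro p hp
    obtain ⟨n, i, hi, _, x, hx, rfl⟩ := mem_iUnion.1 hp
    exact memSt hx hi
  -- positions of the points of St
  have hpos : ∀ {n : ℕ} {x : X}, x ∈ sel S W B n (U n) → ∀ {i : ℕ}, i < (W n).length →
      (pt (W n) i x ∈ Odd ↔ i.bodd = true) := by
    intro n x hx i hi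
    constructor
    · intro h
      obtain ⟨m, j, hj, hodd, y, hy, h⟩ := mem_iUnion.1 h
      obtain ⟨rfl, rfl, rfl⟩ := uniq hdis hy hx hj hi h
      exact hodd
    · intro h
      exact mem_iUnion.2 ⟨n, i, hi, h, x, hx, rfl⟩
  refine ⟨C, ?_, ?_, ?_, ?_⟩
  · exact hOdd.union (((measurableSet_NF hm).inter hSt.compl).inter
      (MeasurableSet.iUnion fun k => (meas_ball hm hSt k false).inter
        (meas_ball hm hSt k true).compl))
  · rintro p (hp | hp)
    · exact hStNF (hOddSt hp)
    · exact hp.1.1
  · intro x hx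
    obtain ⟨γ, hγ⟩ := hmeet x hx
    have hex : ∃ k, x ∈ ball S St k true := exists_ball hgen hγ true
    obtain ⟨k, hk, hmin⟩ : ∃ k, x ∈ ball S St k true ∧ ∀ l < k, x ∉ ball S St l true :=
      ⟨Nat.find hex, Nat.find_spec hex, fun l hl => Nat.find_min hex hl⟩
    cases k with
    | zero =>
      obtain ⟨δ, hδ, h⟩ := hk
      obtain ⟨n, y, hy, i, hi, hp⟩ := exSt h
      cases hb : i.bodd with
      | true => exact ⟨δ, hδ, Or.inl (by rw [← hp]; exact (hpos hy hi).2 hb)⟩
      | false =>
        have hlen := hy.2.2.1.even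
        have hi1 : i + 1 < (W n).length := by
          rcases Nat.lt_or_ge (i + 1) (W n).length with h1 | h1
          · exact h1
          · have : (W n).length = i + 1 := by omega
            rw [this, Nat.bodd_succ, hb] at hlen
            simp at hlen
        have hl := (hy.2.2.1.alt i hi).1
        rw [hb] at hl
        refine ⟨(W n)[i] * δ, (S true).mul_mem (by simpa using hl) hδ, Or.inl ?_⟩
        rw [mul_smul, ← hp, ← pt_succ _ _ _ hi]
        exact (hpos hy hi1).2 (by rw [Nat.bodd_succ, hb]; rfl)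
    | succ k =>
      obtain ⟨δ, hδ, h⟩ := hk
      have hn : δ • x ∉ ball S St k true := by
        intro h1
        have := smul_mem_ball h1 ((S true).inv_mem hδ)
        rw [inv_smul_smul] at this
        exact hmin k (Nat.lt_succ_self k) this
      rcases h with h | h
      · exact absurd h hn
      · refine ⟨δ, hδ, Or.inr ⟨⟨smul_mem_NF hx δ, ?_⟩, mem_iUnion.2 ⟨k, h, hn⟩⟩⟩
        intro h1
        exact hn (ball_mono (Nat.zero_le k) true (subset_sat (S true) St h1))
  · intro x hx
    obtain ⟨γ, hγ⟩ := hmeet x hx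
    have hex : ∃ k, x ∈ ball S St k false := exists_ball hgen hγ false
    obtain ⟨k, hk, hmin⟩ : ∃ k, x ∈ ball S St k false ∧ ∀ l < k, x ∉ ball S St l false :=
      ⟨Nat.find hex, Nat.find_spec hex, fun l hl => Nat.find_min hex hl⟩
    cases k with
    | zero =>
      obtain ⟨δ, hδ, h⟩ := hk
      obtain ⟨n, y, hy, i, hi, hp⟩ := exSt h
      have notC : ∀ {q : X}, q ∈ St → q ∉ Odd → q ∉ C := by
        intro q h1 h2 h3
        rcases h3 with h3 | h3
        · exact h2 h3
        · exact h3.1.2 h1
      cases hb : i.bodd with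
      | false =>
        refine ⟨δ, hδ, notC h ?_⟩
        rw [← hp, hpos hy hi, hb]
        simp
      | true =>
        have hl := (hy.2.2.1.alt i hi).1
        rw [hb] at hl
        have hl' : (W n)[i] ∈ S false := by simpa using hl
        refine ⟨(W n)[i] * δ, (S false).mul_mem hl' hδ, ?_⟩
        rw [mul_smul, ← hp, ← pt_succ _ _ _ hi]
        rcases Nat.lt_or_ge (i + 1) (W n).length with h1 | h1
        · refine notC (memSt hy h1) ?_
          rw [hpos hy h1, Nat.bodd_succ, hb]
          simp
        · have h2 : i + 1 = (W n).length := by omega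
          have h3 : pt (W n) (i + 1) y = pt (W n) 0 y := by
            rw [h2, pt_zero]
            unfold pt
            rw [List.take_length]
            exact hy.2.2.1.closed
          have h0 : 0 < (W n).length := by omega
          rw [h3]
          refine notC (memSt hy h0) ?_
          rw [hpos hy h0]
          simp
    | succ k =>
      obtain ⟨δ, hδ, h⟩ := hk
      have hn : δ • x ∉ ball S St k false := by
        intro h1
        have := smul_mem_ball h1 ((S false).inv_mem hδ)
        rw [inv_smul_smul] at this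
        exact hmin k (Nat.lt_succ_self k) this
      rcases h with h | h
      · refine ⟨δ, hδ, ?_⟩
        rintro (h1 | ⟨_, h1⟩)
        · exact hn (ball_mono (Nat.zero_le k) false (subset_sat (S false) St (hOddSt h1)))
        · obtain ⟨l, hl1, hl2⟩ := mem_iUnion.1 h1
          rcases le_total l k with hlk | hlk
          · exact hn (ball_mono hlk false hl1)
          · exact hl2 (ball_mono hlk true h)
      · exact absurd h hn

end Pool.Agent.Lib_helper77.CSet
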