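import Mathlib

set_option autoImplicit false

/-!
# The set `C` on the non-free part (module CL of MP_d9833d_lc)

`Γ` is a countable group generated by two subgroups `S true`, `S false`, acting in a Borel way on a
countably separated measurable space, both subgroups acting freely.  There is a measurable subset
`C` of the non-free part `NF` such that every `S true`-orbit in `NF` meets `C` and every
`S false`-orbit in `NF` meets the complement of `C`.
-/

namespace Pool.Agent.Lib_helper77.CSet

variable {Γ X : Type*} [Group Γ] [MulAction Γ X]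

/-- the non-free part -/
def NF (Γ X : Type*) [Group Γ] [MulAction Γ X] : Set X := {x | ∃ γ : Γ, γ ≠ 1 ∧ γ • x = x}

omit [MulAction Γ X] in
theorem smul_mem_NF [MulAction Γ X] {x : X} (h : x ∈ NF Γ X) (δ : Γ) : δ • x ∈ NF Γ X := by
  obtain ⟨γ, h1, h2⟩ := h
  refine ⟨δ * γ * δ⁻¹, ?_, ?_⟩
  · intro h
    apply h1
    have : γ = δ⁻¹ * (δ * γ * δ⁻¹) * δ := by group
    rw [this, h]; group
  · rw [mul_smul, mul_smul, inv_smul_smul, h2]

/-! ### words -/

/-- product of a word, the first letter acts first -/
def ev : List Γ → Γ
  | [] => 1
  | l :: w => ev w * l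

theorem ev_append (u v : List Γ) : ev (u ++ v) = ev v * ev u := by
  induction u with
  | nil => simp [ev]
  | cons l u ih => simp [ev, ih, mul_assoc]

theorem ev_singleton (l : Γ) : ev [l] = l := by simp [ev]

/-- alternating word with nontrivial letters, the first letter in `S b` -/
def Alt (S : Bool → Subgroup Γ) (b : Bool) (w : List Γ) : Prop :=
  ∀ k (h : k < w.length), w[k] ∈ S (xor b k.bodd) ∧ w[k] ≠ 1

variable {S : Bool → Subgroup Γ}

theorem alt_nil (b : Bool) : Alt S b [] := by
  intro k h; simp at h

theorem alt_cons {b : Bool} {l : Γ} {w : List Γ} :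
    Alt S b (l :: w) ↔ l ∈ S b ∧ l ≠ 1 ∧ Alt S (!b) w := by
  constructor
  · intro h
    have h0 := h 0 (by simp)
    simp only [List.getElem_cons_zero, Nat.bodd_zero, Bool.xor_false] at h0
    refine ⟨h0.1, h0.2, fun k hk => ?_⟩
    have h1 := h (k + 1) (by simp; omega)
    simp only [List.getElem_cons_succ, Nat.bodd_succ] at h1
    have e : xor b (!k.bodd) = xor (!b) k.bodd := by cases b <;> cases k.bodd <;> rfl
    rw [e] at h1
    exact h1
  · rintro ⟨h1, h2, h3⟩ k hk
    cases k with
    | zero => simpa using ⟨h1, h2⟩
    | succ k =>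
      have := h3 k (by simpa using hk)
      simp only [List.getElem_cons_succ, Nat.bodd_succ]
      have e : xor b (!k.bodd) = xor (!b) k.bodd := by cases b <;> cases k.bodd <;> rfl
      rw [e]
      exact this

theorem alt_append {b : Bool} {u v : List Γ} :
    Alt S b (u ++ v) ↔ Alt S b u ∧ Alt S (xor b u.length.bodd) v := by
  induction u generalizing b with
  | nil => simp [alt_nil]
  | cons l u ih =>
    rw [List.cons_append, alt_cons, alt_cons, ih]
    have e : xor (!b) u.length.bodd = xor b (l :: u).length.bodd := by
      rw [List.length_cons, Nat.bodd_succ]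
      cases b <;> cases u.length.bodd <;> rfl
    rw [e]
    tauto

/-- multiplication of a reduced word by a letter -/
theorem alt_mul {b : Bool} {w : List Γ} (hw : Alt S b w) {c : Bool} {l : Γ} (hl : l ∈ S c) :
    ∃ b' w', Alt S b' w' ∧ ev w' = ev w * l := by
  by_cases h1 : l = 1
  · exact ⟨b, w, hw, by simp [h1]⟩
  cases w with
  | nil => exact ⟨c, [l], alt_cons.2 ⟨hl, h1, alt_nil _⟩, by simp [ev]⟩
  | cons m w =>
    obtain ⟨hm, hm1, hw'⟩ := alt_cons.1 hw
    by_cases hbc : b = c
    · subst hbc
      by_cases h2 : m * l = 1
      · refine ⟨!b, w, hw', ?_⟩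
        simp only [ev, mul_assoc, h2, mul_one]
      · refine ⟨b, (m * l) :: w, alt_cons.2 ⟨mul_mem hm hl, h2, hw'⟩, ?_⟩
        simp only [ev, mul_assoc]
    · refine ⟨c, l :: m :: w, alt_cons.2 ⟨hl, h1, ?_⟩, ?_⟩
      · have : (!c) = b := by cases b <;> cases c <;> simp_all
        rw [this]; exact hw
      · simp only [ev]

theorem exists_alt (hgen : Subgroup.closure ((S true : Set Γ) ∪ S false) = ⊤) (γ : Γ) :
    ∃ b w, Alt S b w ∧ ev w = γ := by
  have hγ : γ ∈ Subgroup.closure ((S true : Set Γ) ∪ S false) := by rw [hgen]; trivial
  induction hγ using Subgroup.closure_induction_right with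
  | one => exact ⟨true, [], alt_nil _, rfl⟩
  | mul_right x _ y hy ih =>
    obtain ⟨b, w, hw, rfl⟩ := ih
    rcases hy with hy | hy
    · exact alt_mul hw (c := true) hy
    · exact alt_mul hw (c := false) hy
  | mul_inv_cancel x _ y hy ih =>
    obtain ⟨b, w, hw, rfl⟩ := ih
    rcases hy with hy | hy
    · exact alt_mul hw (c := true) (inv_mem hy)
    · exact alt_mul hw (c := false) (inv_mem hy)

/-- points of the walk -/
def pt (w : List Γ) (i : ℕ) (x : X) : X := ev (w.take i) • x

theorem pt_zero (w : List Γ) (x : X) : pt w 0 x = x := by simp [pt, ev]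

theorem pt_succ (w : List Γ) (i : ℕ) (x : X) (h : i < w.length) :
    pt w (i + 1) x = w[i] • pt w i x := by
  unfold pt
  rw [List.take_add_one, List.getElem?_eq_getElem h, Option.toList_some, ev_append,
    ev_singleton, mul_smul]

/-- `w` is a circuit at `x`: closed, even length, starting with a letter of `S true`, all points
distinct -/
structure IsC (S : Bool → Subgroup Γ) (w : List Γ) (x : X) : Prop where
  ne : w ≠ []
  even : w.length.bodd = false
  alt : Alt S true w
  closed : ev w • x = x
  inj : ∀ i j, i < w.length → j < w.length → pt w i x = pt w j x → i = j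

theorem exists_circuit (hgen : Subgroup.closure ((S true : Set Γ) ∪ S false) = ⊤)
    (hfree : ∀ b, ∀ γ ∈ S b, γ ≠ 1 → ∀ x : X, γ • x ≠ x) {x : X} (hx : x ∈ NF Γ X) :
    ∃ γ : Γ, ∃ w, IsC S w (γ • x) := by
  classical
  let P : ℕ → Prop := fun L => ∃ δ : Γ, ∃ b w, w.length = L ∧ w ≠ [] ∧ Alt S b w ∧
    ev w • (δ • x) = δ • x
  have hP : ∃ L, P L := by
    obtain ⟨γ, h1, h2⟩ := hx
    obtain ⟨b, w, hw, rfl⟩ := exists_alt hgen γ
    refine ⟨w.length, 1, b, w, rfl, ?_, hw, by simpa using h2⟩
    rintro rfl
    exact h1 rfl
  have hmin : ∀ {δ : Γ} {b : Bool} {w : List Γ}, w ≠ [] → Alt S b w →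
      ev w • (δ • x) = δ • x → Nat.find hP ≤ w.length := by
    intro δ b w h1 h2 h3
    exact Nat.find_min' hP ⟨δ, b, w, rfl, h1, h2, h3⟩
  obtain ⟨δ, b, w, hL, hne, hw, hcl⟩ := Nat.find_spec hP
  -- distinctness
  have hinj : ∀ {δ : Γ} {b : Bool} {w : List Γ}, w.length = Nat.find hP → Alt S b w →
      ∀ i j, i < j → j < w.length → pt w i (δ • x) ≠ pt w j (δ • x) := by
    intro δ b w hL hw i j hij hj he
    have e1 : w.take j = w.take i ++ (w.drop i).take (j - i) := by
      conv_lhs => rw [show j = i + (j - i) by omega]
      rw [List.take_add]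
    have hl : ((w.drop i).take (j - i)).length = j - i := by
      simp; omega
    have halt : Alt S (xor b i.bodd) ((w.drop i).take (j - i)) := by
      have h1 : Alt S b (w.take i ++ w.drop i) := by rw [List.take_append_drop]; exact hw
      have h2 := (alt_append.1 h1).2
      have h3 : (w.take i).length = i := by simp; omega
      rw [h3] at h2
      have h4 : Alt S (xor b i.bodd) ((w.drop i).take (j - i) ++ (w.drop i).drop (j - i)) := by
        rw [List.take_append_drop]; exact h2
      exact (alt_append.1 h4).1
    have hc : ev ((w.drop i).take (j - i)) • ((ev (w.take i) * δ) • x)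
        = (ev (w.take i) * δ) • x := by
      unfold pt at he
      rw [e1, ev_append] at he
      simp only [mul_smul] at he ⊢
      exact he.symm
    have := hmin (by intro h; rw [h] at hl; simp at hl; omega) halt hc
    omega
  -- even length
  have hev : w.length.bodd = false := by
    by_contra hodd
    have hodd : w.length.bodd = true := by
      cases h : w.length.bodd <;> simp_all
    cases w with
    | nil => exact hne rfl
    | cons l w1 =>
      obtain ⟨hl, hl1, hw1⟩ := alt_cons.1 hw
      rcases List.eq_nil_or_concat w1 with rfl | ⟨w2, m, rfl⟩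
      · have : l • (δ • x) = δ • x := by simpa [ev] using hcl
        exact hfree b l hl hl1 _ this
      · rw [List.concat_eq_append] at *
        obtain ⟨hw2, hm⟩ := alt_append.1 hw1
        obtain ⟨hm, hm1, _⟩ := alt_cons.1 hm
        have hb2 : w2.length.bodd = true := by
          simp only [List.length_cons, List.length_append, List.length_nil, Nat.bodd_succ,
            zero_add, Bool.not_not] at hodd
          exact hodd
        have hne2 : w2 ≠ [] := by
          rintro rfl; simp at hb2
        have hlen : (w2 ++ [m]).length = w2.length + 1 := by simp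
        rw [hb2] at hm
        have hmb : m ∈ S b := by
          have : xor (!b) true = b := by cases b <;> rfl
          rwa [this] at hm
        have key : m • ev w2 • l • δ • x = δ • x := by
          have := hcl
          simp only [ev, ev_append, ev_singleton, mul_smul] at this
          simpa [ev, mul_smul] using this
        by_cases h1 : l * m = 1
        · have hc : ev w2 • ((l * δ) • x) = (l * δ) • x := by
            have : l = m⁻¹ := eq_inv_of_mul_eq_one_left h1
            rw [mul_smul]
            calc ev w2 • l • δ • x = m⁻¹ • (m • ev w2 • l • δ • x) := by rw [inv_smul_smul]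
              _ = m⁻¹ • δ • x := by rw [key]
              _ = l • δ • x := by rw [← this]
          have := hmin hne2 hw2 hc
          simp only [List.length_cons, List.length_append, List.length_nil] at hL
          omega
        · have hc : ev (w2 ++ [l * m]) • ((l * δ) • x) = (l * δ) • x := by
            rw [ev_append, ev_singleton, mul_smul, mul_smul, mul_smul]
            rw [key]
          have ha : Alt S (!b) (w2 ++ [l * m]) := by
            refine alt_append.2 ⟨hw2, ?_⟩
            rw [hb2]
            refine alt_cons.2 ⟨?_, h1, alt_nil _⟩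
            have : xor (!b) true = b := by cases b <;> rfl
            rw [this]
            exact mul_mem hl hmb
          have := hmin (by simp) ha hc
          simp only [List.length_cons, List.length_append, List.length_nil] at hL this
          omega
  have hfin : ∀ {δ : Γ} {w : List Γ}, w.length = Nat.find hP → w ≠ [] → Alt S true w →
      w.length.bodd = false → ev w • (δ • x) = δ • x → IsC S w (δ • x) := by
    intro δ w hL hne hw hev hcl
    refine ⟨hne, hev, hw, hcl, ?_⟩
    intro i j hi hj he
    rcases lt_trichotomy i j with h | h | h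
    · exact absurd he (hinj hL hw i j h hj)
    · exact h
    · exact absurd he.symm (hinj hL hw j i h hi)
  cases b with
  | true => exact ⟨δ, w, hfin hL hne hw hev hcl⟩
  | false =>
    cases w with
    | nil => exact absurd rfl hne
    | cons l w1 =>
      obtain ⟨hl, hl1, hw1⟩ := alt_cons.1 hw
      refine ⟨l * δ, w1 ++ [l], hfin ?_ (by simp) ?_ ?_ ?_⟩
      · simpa using hL
      · refine alt_append.2 ⟨hw1, ?_⟩
        have : w1.length.bodd = true := by
          simpa [List.length_cons, Nat.bodd_succ] using hev
        rw [this]
        exact alt_cons.2 ⟨hl, hl1, alt_nil _⟩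
      · simpa using hev
      · rw [ev_append, ev_singleton, mul_smul, mul_smul]
        have : ev w1 • l • δ • x = δ • x := by
          simpa [ev, mul_smul] using hcl
        rw [this]

end Pool.Agent.Lib_helper77.CSet
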